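import Pool.Agent.H924.Ctr.Stmt

/-!
# Q1 for varieties with a self-map which reduces through the Frobenius (for example abelian schemes)

Setting, as in the starting results `AllPerfectoidFields` and `BaseFieldIndependence`: `K` is a perfectoid
field of characteristic `0` and residue characteristic `p`, `E = K♭`, `C` is the completion of an algebraic
closure of `K`, and `F = C♭`. The structure `Tilting p C F` consists of the absolute values, of the map
`x ↦ x♯` from `F` to `C`, and of the map `θ` of Fontaine; `BaseField T K E` says that `E` is perfect,
contains an element of absolute value `|p|`, and that `θ` maps the Witt vectors over the integers of `E`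
onto the integers of `K`; `IsHenselianDense T E` says that the elements of `F` which are algebraic over `E`
are dense and that elements which are conjugate over `E` have the same absolute value. All this is true
for every perfectoid field `K` of characteristic `0`. `Approximable T K E X d` is Q1 for the closed
subset `X` of dimension `d` of projective space over `K`, given by the set of the points over `C` of its
cone: for all forms `Q_k` over `K` which vanish on `X` and all `ε > 0` there is a closed subset `Y` of
dimension `d` defined over `E = K♭` with `|Q_k(y♯)| ≤ ε ‖y‖ ^ deg Q_k` for all `k` and all points `y` of
`Y`.

New here: `intRing T K` is the ring of integers `O_K`, `maxIdeal T K` its maximal ideal `𝔪`. Let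
`P_1, ..., P_r` be forms over `O_K` in `n + 1` variables, `I` the ideal which they generate in `O_K[x]`,
and `X` the closed subset of projective space which they define (`cone C P` is the set of the points over
`C` of the cone over `X`). `FreeOnFibre 𝔪 P f`: the `f_i` have no common zero on the special fibre of
`X`, that is, the radical of the ideal generated by the `P_j`, the `f_i` and `𝔪` contains all the variables.
`FibreDimLE 𝔪 P d`: the special fibre of `X` has dimension at most `d`, that is, some `d + 1` forms
over `O_K` have no common zero on it.

**Theorem.** Let `X` be of dimension at least `d`, with special fibre of dimension at most `d`. Let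
`f_0, ..., f_n` be forms over `O_K` of the same degree `D > 0` without common zero on the special fibre of
`X`. Suppose that (`HasContraction`)

* (`KillsConormal`) `P_j(f_0, ..., f_n)` is in `I ^ 2 + 𝔪 I` for all `j` (so `f` maps `X` to `X`, and it kills the conormal
  sheaf `I / I ^ 2` of `X` modulo `𝔪`); or that
* (`ThroughFrobenius`) `P_j(f_0, ..., f_n)` is in `I` for all `j`, the `f_i` are congruent to `p`-th powers of polynomials
  modulo `𝔪` (so that the self-map `f` of `X` reduces to a map through the Frobenius), the ideal
  `I + 𝔪 O_K[x]` is radical, and `O_K[x] / I` is torsion-free (the cone over `X` is flat over `O_K` with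
  reduced special fibre).

Then Q1 holds for `X`: every neighbourhood of `X` contains `π(Y)` for some closed `Y` over `K♭` of
dimension `d`.

The main example are the abelian varieties with good reduction, in particular those of dimension at least
two, which are not images of complete intersections: let `A` be an abelian scheme over `O_K`, embedded in
projective space by a symmetric and sufficiently ample line bundle. The map `[p ^ m]` is given by forms of
degree `p ^ (2 m)`. Modulo `𝔪` it is the composition of the relative Frobenius `A → A'` and of
`[p ^ (m-1)] ∘ V`, and for large `m` the second map is given by forms `G_i` in the coordinates of `A'`, so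
that the reductions of the `f_i` can be chosen as `G_i(x_0 ^ p, ..., x_n ^ p)`, which are `p`-th powers
since the residue field is perfect. By the results on stability (`StableUnderOperations`) Q1 then holds for
the images, products and proper intersections of these varieties, for example for Kummer varieties.

The proof. A tube of radius `δ < 1` around `X`, given by `|P_j(z)| ≤ δ ‖z‖ ^ deg P_j`, is mapped by `f` to
the tube of radius `max (δ ^ 2) (r δ)` with a fixed `r < 1`, because `P_j(f)` is in `I ^ 2 + 𝔪 I`. So it
suffices to find one closed `Y` of dimension `d` in one tube of radius `δ < 1`, and to replace it
repeatedly by a closed subset near its image under `f` (this uses the approximation lemma of the starting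
results for the graph of `f`, see `step`). To find `Y`, we embed the residue field `κ` of `C` in `F` by a
section `s` of the reduction (`exists_section`), and take for `Y` the constant variety, the zero set over
`F` of the images under `s` of the reductions of the `P_j`: the coefficients `a` of the `P_j` satisfy
`|a - s(a)♯| < 1` (`coarse`); its dimension is at least that of `X` (`dimGE_spec₂`). Finally Q1 over `C`
implies Q1 over `K` by the starting result `BaseFieldIndependence`.
-/

set_option autoImplicit false

namespace Pool.Agent.Results.MP_db3ab1_ag.ContractingSelfMaps

open MvPolynomial Pool.Agent.Y129.TA
open Pool.Agent.Y129.TB (IsConeOver Approximable DimLEOver BaseField)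
open Pool.Agent.Q219.PT (IsHenselianDense)
open Pool.Agent.H924.Ctr (intRing maxIdeal AreForms FreeOnFibre FibreDimLE HasContraction
  cone mainK zeros_cone zeros_dimLE contraction_of_frob)

/-- **Q1 for varieties over `O_K` with a self-map which reduces through the Frobenius.** -/
theorem result {p : ℕ} [Fact p.Prime] {C F K E : Type} [Field C] [Field F] [CharP F p] [Field K]
    [Field E] [Algebra K C] [Algebra E F] [IsAlgClosed C] [IsAlgClosed F] (T : Tilting p C F)
    (B : BaseField T K E) (hE : IsHenselianDense T.toTiltPair E) {n r d : ℕ}
    (P : Fin r → MvPolynomial (Fin (n + 1)) (intRing T.toTiltPair K)) (hP : AreForms P)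
    (hX : DimGE (cone C P) d) (hX' : FibreDimLE (maxIdeal T.toTiltPair K) P d)
    (h : HasContraction p (maxIdeal T.toTiltPair K) P) :
    IsConeOver K (cone C P) ∧ DimLEOver K (cone C P) d ∧
      Approximable T.toTiltPair K E (cone C P) d := by
  obtain ⟨D, f, hD, hf, hf', h⟩ := h
  refine ⟨zeros_cone hP, zeros_dimLE hP hX', mainK T B hE hP hX' hX hD hf hf' fun j => ?_⟩
  rcases h with h | ⟨h1, h2, h3, h4⟩
  · exact h j
  · exact contraction_of_frob T B h2 (h1 j) h3 h4

end Pool.Agent.Results.MP_db3ab1_ag.ContractingSelfMaps
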