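import Pool.Agent.H924.Ctr.AinfC

/-!
# Q1 for varieties with a lift of the Frobenius (for example totally degenerate abelian varieties)

Setting, as in the starting result `AllPerfectoidFields`: `K` is a perfectoid field of characteristic
`0` and residue characteristic `p`, `E = K♭`, `C` is the completion of an algebraic closure of `K`, and
`F = C♭`. The structure `Tilting p C F` consists of the absolute values, of the map `x ↦ x♯` from `F` to
`C`, and of the map `θ` of Fontaine; `BaseField T K E` says that `E` is perfect, contains an element of
absolute value `|p|`, and that `θ` maps the Witt vectors over the integers of `E` onto the integers of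
`K`. All this is true for every perfectoid field `K` of characteristic `0`. `Approximable T K E X d` is Q1
for the closed subset `X` of dimension `d` of projective space over `K`, given by the set of the points
over `C` of its cone: for all forms `Q_k` over `K` which vanish on `X` and all `ε > 0` there is a closed
subset `Y` of dimension `d` defined over `E = K♭` with `|Q_k(y♯)| ≤ ε ‖y‖ ^ deg Q_k` for all `k` and all
points `y` of `Y`.

New here: `TiltedRing T K E A` consists of an automorphism `φ` of the ring `A` and of homomorphisms `θ` from
`A` to the ring of integers of `K` and `β` from `A` to the ring of integers of the tilt `E` of `K`, such that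
`β (φ a) = β a ^ p` and such that `θ a` is congruent to `(β a)♯` modulo `p`. The main example
(`Pool.Agent.H924.Ctr.ainf`) is the ring `A = A_inf = W(O_E)` of Fontaine with its Frobenius `φ`, the map `θ` of
Fontaine, and the reduction `β` modulo `p`; here `φ` is a lift of the Frobenius (`ainf_frob`). Other examples are
`A = W(k)` for perfect fields `k`, or perfections of power series rings, with homomorphisms to `W(O_E)`.

Let `P_1, ..., P_r` be forms over `A` in `n + 1` variables, `I` the ideal which they generate in `A[x]`,
and `𝒳` the closed subscheme of projective space over `A` with the equations `P_j`. It has a fibre `X`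
over `K` (by `θ`), a fibre over the tilt `E` (by `β`), and a special fibre (by the ideal `R.ideal` of the `a`
with `|β a| < 1`). Let `𝒳^(k)` be the twist of `𝒳` by `φ ^ k`; its equations are the `φ ^ k (P_j)`.

**Theorem.** Suppose that the fibre of `𝒳` over `E` has dimension at least `d`, and that the special
fibre has dimension at most `d`. Suppose moreover (`HasFrobeniusLift`) that

* (`LiftsFrobenius`) `φ a` is congruent to `a ^ p` modulo `p` for all `a`, there are forms `f_0, ..., f_n` over
  `A` of degree `p` with `f_i` congruent to `x_i ^ p` modulo `p`, such that `φ(P_j)(f_0, ..., f_n)` is in `I`
  for all `j` (so that `f` is a map from `𝒳` to `𝒳^(1)` which lifts the relative Frobenius), and `A[x] / I` has no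
  `p`-torsion; or that
* (`ContractsTwist`) for some `k ≥ 0` there are forms `f_0, ..., f_n` over `A` of the same positive degree,
  without common zero on the special fibre, such that `(φ ^ k)(P_j)(f_0, ..., f_n)` is in `I ^ 2 + p I` for
  all `j` (so `f` is a map from `𝒳` to `𝒳^(k)` which kills the conormal sheaf modulo `p`).

Then `X` is a closed subset of dimension `d` of projective space over `K`, and Q1 holds for `X`.

Nothing is assumed on the reduction of `X`: the scheme `𝒳` can be singular, and `X` can have bad
reduction. The main examples (for `A = W(O_E)`) are

* the totally degenerate abelian varieties over `K = C` (those with multiplicative reduction, Mumford), of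
  arbitrary dimension: if `q_{ij}` are the periods, choose a symmetric system of elements `q_{ij}^♭` of
  `F` with `(q_{ij}^♭)^♯ = q_{ij}`, and let `𝒳` be given by the theta functions `∑ q^(l m ^ 2 / 2) x^(l m)` of a level
  `l ≥ 3` with the periods `[q_{ij}^♭]` in `W(O_F)`; as `φ [q^♭] = [q^♭] ^ p`, the map `x ↦ x ^ p` from the torus
  to itself defines a map from `𝒳` to `𝒳^(1)`, which lifts the Frobenius;
* the schemes over `W(k)` with a lift of the Frobenius, `k` a perfect field, for example canonical lifts of
  ordinary abelian varieties.

Abelian varieties of dimension at least two are not images of complete intersections in toric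
varieties, the case in which Q1 was known. By the results on stability (`StableUnderOperations`) Q1 holds
also for the images, products and proper intersections of these varieties, for example for the curves in such
abelian varieties which are intersections of divisors, and for Kummer varieties.

The proof. Since `φ` is an automorphism, there are twists `𝒳^(-m)` for all `m`, and maps
`f^(-m-1) : 𝒳^(-k(m+1)) → 𝒳^(-km)`. Let `X_m` be the fibre of `𝒳^(-km)` over `K`. The fibre of `𝒳^(-km)` over `E` is a
Frobenius twist `Y_m` of the one of `𝒳`, so it has dimension at least `d` (`WW_dimGE`), and it is an
approximation of `X_m` with the radius `|p|`, because the map `♯` is additive modulo `p` (`close_poly`). The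
maps `X_{m+1} → X_m` contract the tubes around the `X_m`: a tube of radius `δ` is mapped to the tube of radius
`max (δ ^ 2) (|p| δ)`, for all `m`. So the radius of the image of `Y_m` under (approximations of) `m` maps
tends to zero (`tower`; one step is `Pool.Agent.H924.Ctr.step`).
-/

set_option autoImplicit false

namespace Pool.Agent.Results.MP_db3ab1_ag.FrobeniusLifts

open MvPolynomial Pool.Agent.Y129.TA
open Pool.Agent.Y129.TB (IsConeOver Approximable DimLEOver BaseField)
open Pool.Agent.H924.Ctr (TiltedRing conePoints AreForms FibreDimLE HasFrobeniusLift tilted_main)

/-- **Q1 for varieties with a lift of the Frobenius.** -/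
theorem result {p : ℕ} [Fact p.Prime] {C F K E : Type} [Field C] [Field F] [CharP F p] [Field K]
    [Field E] [Algebra K C] [Algebra E F] [IsAlgClosed C] [IsAlgClosed F] (T : Tilting p C F)
    (B : BaseField T K E) {A : Type} [CommRing A] (R : TiltedRing T.toTiltPair K E A) {n r d : ℕ}
    (P : Fin r → MvPolynomial (Fin (n + 1)) A) (hP : AreForms P)
    (hY : DimGE (conePoints R.β P) d) (hs : FibreDimLE R.ideal P d)
    (h : HasFrobeniusLift p R.φ R.ideal P) :
    IsConeOver K (conePoints R.θ P) ∧ DimGE (conePoints R.θ P) d ∧
      DimLEOver K (conePoints R.θ P) d ∧
      Approximable T.toTiltPair K E (conePoints R.θ P) d :=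
  tilted_main T B R hP hY hs h

end Pool.Agent.Results.MP_db3ab1_ag.FrobeniusLifts
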